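import Pool.Agent.P8H99.GO.Stm

set_option autoImplicit false

/-!
# Project OD (helper99), package BLK: blocked lists of length at least seven
-/

namespace Pool.Agent.P8H54.OD

open Pool.Agent.P8H99.GO

/-- length seven, real numbers -/
lemma seven_real (T a b c d e f g n : ℝ) (hT : 0 ≤ T) (ha : 0 ≤ a) (hb : 0 ≤ b) (hc : 0 ≤ c) (hd : 0 ≤ d) (he : 0 ≤ e)
    (hf : 0 ≤ f) (hg : 0 ≤ g) (h1 : T ≤ a ∨ T ≤ b) (h2 : T ≤ g ∨ T ≤ f) (hn : n = a + b + c + d + e + f + g)
    (hTn : 2 * T ≤ n) :
    a * b + b * c + c * d + d * e + e * f + f * g ≤ n ^ 2 / 4 - T * n / 16 := by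
  by_contra hcon
  rw [not_le] at hcon
  obtain ⟨E, hE⟩ : ∃ E, E = b + d + f := ⟨_, rfl⟩
  obtain ⟨O, hO⟩ : ∃ O, O = a + c + e + g := ⟨_, rfl⟩
  obtain ⟨M, hM⟩ : ∃ M, M = a * d + a * f + c * f + e * b + g * b + g * d := ⟨_, rfl⟩
  have hEO : n = E + O := by rw [hn, hE, hO]; ring
  have hid : a * b + b * c + c * d + d * e + e * f + f * g = n ^ 2 / 4 - (E - O) ^ 2 / 4 - M := by
    rw [hM, hn, hE, hO]; ring
  rw [hid] at hcon
  have hn0 : 0 ≤ n := by linarith
  have hM0 : 0 ≤ M := by rw [hM]; positivity
  have hkey : M + (E - O) ^ 2 / 4 < T * n / 16 := by linarith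
  have hTT : T * n ≤ n * n := mul_le_mul_of_nonneg_right (by linarith) hn0
  have hsq0 : 0 ≤ (E - O) ^ 2 := sq_nonneg _
  have hMlt : M < T * n / 16 := by linarith
  -- both parts are at least a quarter
  have hE4 : n / 4 ≤ E := by
    by_contra h
    rw [not_le] at h
    have e1 : n / 2 ≤ O - E := by linarith
    have e2 : (n / 2) * (n / 2) ≤ (O - E) * (O - E) := mul_self_le_mul_self (by linarith) e1
    have e3 : (E - O) ^ 2 = (O - E) * (O - E) := by ring
    linarith
  have hO4 : n / 4 ≤ O := by
    by_contra h
    rw [not_le] at h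
    have e1 : n / 2 ≤ E - O := by linarith
    have e2 : (n / 2) * (n / 2) ≤ (E - O) * (E - O) := mul_self_le_mul_self (by linarith) e1
    have e3 : (E - O) ^ 2 = (E - O) * (E - O) := by ring
    linarith
  have hTpos : 0 < T := by
    rcases hT.eq_or_lt with h | h
    · rw [← h] at hMlt
      linarith
    · exact h
  have hnpos : 0 < n := by linarith
  have had : 0 ≤ a * d := mul_nonneg ha hd
  have haf : 0 ≤ a * f := mul_nonneg ha hf
  have hcf : 0 ≤ c * f := mul_nonneg hc hf
  have heb : 0 ≤ e * b := mul_nonneg he hb
  have hgb : 0 ≤ g * b := mul_nonneg hg hb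
  have hgd : 0 ≤ g * d := mul_nonneg hg hd
  have hTE : T * (n / 4) ≤ T * E := mul_le_mul_of_nonneg_left hE4 hT
  have hTO : T * (n / 4) ≤ T * O := mul_le_mul_of_nonneg_left hO4 hT
  have hTn0 : 0 < T * n := mul_pos hTpos hnpos
  rcases h1 with h1 | h1
  · rcases h2 with h2 | h2
    · -- a, g
      have e1 : T * (d + f) ≤ a * (d + f) := mul_le_mul_of_nonneg_right h1 (by linarith)
      have e2 : T * (b + d) ≤ g * (b + d) := mul_le_mul_of_nonneg_right h2 (by linarith)
      have e3 : T * E ≤ T * (d + f) + T * (b + d) := by
        have : 0 ≤ T * d := mul_nonneg hT hd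
        rw [hE]; linarith
      have e4 : a * (d + f) + g * (b + d) ≤ M := by rw [hM]; linarith
      linarith
    · -- a, f
      have e1 : T * (d + f) ≤ a * (d + f) := mul_le_mul_of_nonneg_right h1 (by linarith)
      have e2 : a * (d + f) ≤ M := by rw [hM]; linarith
      have e3 : d + f < n / 16 := by
        have : T * (d + f) < T * (n / 16) := by linarith
        exact lt_of_mul_lt_mul_left this hT
      have e4 : 3 * n / 16 < b := by linarith
      have e5 : T * (a + c) ≤ f * (a + c) := mul_le_mul_of_nonneg_right h2 (by linarith)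
      have e6 : f * (a + c) ≤ M := by rw [hM]; linarith
      have e7 : a + c < n / 16 := by
        have : T * (a + c) < T * (n / 16) := by linarith
        exact lt_of_mul_lt_mul_left this hT
      have e8 : 3 * n / 16 < e + g := by linarith
      have e9 : (3 * n / 16) * (3 * n / 16) ≤ b * (e + g) :=
        mul_le_mul e4.le e8.le (by linarith) hb
      have e10 : b * (e + g) ≤ M := by rw [hM]; linarith
      have e11 : 2 * T * n ≤ n * n := mul_le_mul_of_nonneg_right hTn hn0
      linarith
  · rcases h2 with h2 | h2
    · -- b, g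
      have e1 : T * (b + d) ≤ g * (b + d) := mul_le_mul_of_nonneg_right h2 (by linarith)
      have e2 : g * (b + d) ≤ M := by rw [hM]; linarith
      have e3 : b + d < n / 16 := by
        have : T * (b + d) < T * (n / 16) := by linarith
        exact lt_of_mul_lt_mul_left this hT
      have e4 : 3 * n / 16 < f := by linarith
      have e5 : T * (e + g) ≤ b * (e + g) := mul_le_mul_of_nonneg_right h1 (by linarith)
      have e6 : b * (e + g) ≤ M := by rw [hM]; linarith
      have e7 : e + g < n / 16 := by
        have : T * (e + g) < T * (n / 16) := by linarith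
        exact lt_of_mul_lt_mul_left this hT
      have e8 : 3 * n / 16 < a + c := by linarith
      have e9 : (3 * n / 16) * (3 * n / 16) ≤ f * (a + c) :=
        mul_le_mul e4.le e8.le (by linarith) hf
      have e10 : f * (a + c) ≤ M := by rw [hM]; linarith
      have e11 : 2 * T * n ≤ n * n := mul_le_mul_of_nonneg_right hTn hn0
      linarith
    · -- b, f
      have e1 : T * (e + g) ≤ b * (e + g) := mul_le_mul_of_nonneg_right h1 (by linarith)
      have e2 : T * (a + c) ≤ f * (a + c) := mul_le_mul_of_nonneg_right h2 (by linarith)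
      have e3 : T * O = T * (e + g) + T * (a + c) := by rw [hO]; ring
      have e4 : b * (e + g) + f * (a + c) ≤ M := by rw [hM]; linarith
      linarith

lemma path_mono (x y : ℕ) (h : x ≤ y) (l : List ℕ) : path (x :: l) ≤ path (y :: l) := by
  cases l with
  | nil => exact le_rfl
  | cons z l =>
    show x * z + path (z :: l) ≤ y * z + path (z :: l)
    exact Nat.add_le_add_right (Nat.mul_le_mul_right z h) _

lemma blk_aux (T : ℕ) (m : ℕ) : ∀ s : List ℕ, s.length = m + 7 → Blk T s → Blk T s.reverse → 2 * T ≤ s.sum →
    (path s : ℝ) ≤ (s.sum : ℝ) ^ 2 / 4 - T * s.sum / 16 := by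
  induction m with
  | zero =>
    intro s hs h1 h2 hT
    match s, hs, h1, h2, hT with
    | [a, b, c, d, e, f, g], _, h1, h2, hT =>
      have k1 : T < a ∨ T < b := by
        obtain ⟨x, y, l, hl, h⟩ := h1
        simp only [List.cons.injEq] at hl
        rw [hl.1, hl.2.1]
        exact h
      have k2 : T < g ∨ T < f := by
        obtain ⟨x, y, l, hl, h⟩ := h2
        have e1 : [a, b, c, d, e, f, g].reverse = [g, f, e, d, c, b, a] := rfl
        rw [e1] at hl
        simp only [List.cons.injEq] at hl
        rw [hl.1, hl.2.1]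
        exact h
      have e2 : [a, b, c, d, e, f, g].sum = a + b + c + d + e + f + g := by
        simp only [List.sum_cons, List.sum_nil]
        ring
      have e3 : path [a, b, c, d, e, f, g] = a * b + b * c + c * d + d * e + e * f + f * g := by
        simp only [path]
        ring
      rw [e2] at hT ⊢
      rw [e3]
      have h3 := seven_real T a b c d e f g ((a + b + c + d + e + f + g : ℕ) : ℝ) (Nat.cast_nonneg _) (Nat.cast_nonneg _)
        (Nat.cast_nonneg _) (Nat.cast_nonneg _) (Nat.cast_nonneg _) (Nat.cast_nonneg _) (Nat.cast_nonneg _)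
        (Nat.cast_nonneg _) (k1.imp (fun h => by exact_mod_cast h.le) (fun h => by exact_mod_cast h.le))
        (k2.imp (fun h => by exact_mod_cast h.le) (fun h => by exact_mod_cast h.le)) (by push_cast; ring)
        (by exact_mod_cast hT)
      push_cast at h3 ⊢
      linarith
  | succ m ih =>
    intro s hs h1 h2 hT
    match s, hs, h1, h2, hT with
    | a :: b :: c :: d :: e :: l, hs, h1, h2, hT =>
      have hlen : (d :: e :: l).length = m + 5 := by
        simp only [List.length_cons] at hs ⊢
        omega
      have k1 : T < a ∨ T < b := by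
        obtain ⟨x, y, l', hl, h⟩ := h1
        simp only [List.cons.injEq] at hl
        rw [hl.1, hl.2.1]
        exact h
      have hs' : (b :: (a + c) :: d :: e :: l).length = m + 7 := by
        simp only [List.length_cons] at hs ⊢
        omega
      have hsum : (b :: (a + c) :: d :: e :: l).sum = (a :: b :: c :: d :: e :: l).sum := by
        simp only [List.sum_cons]
        ring
      have b1 : Blk T (b :: (a + c) :: d :: e :: l) := by
        refine ⟨b, a + c, d :: e :: l, rfl, ?_⟩
        rcases k1 with h | h
        · right; omega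
        · left; exact h
      -- the reversed list
      have hrev : ∃ (p q : ℕ) (r : List ℕ), (d :: e :: l).reverse = p :: q :: r := by
        have h3 : (d :: e :: l).reverse.length = m + 5 := by rw [List.length_reverse, hlen]
        match (d :: e :: l).reverse, h3 with
        | p :: q :: r, _ => exact ⟨p, q, r, rfl⟩
      obtain ⟨p, q, r, hr⟩ := hrev
      have e1 : (a :: b :: c :: d :: e :: l).reverse = p :: q :: (r ++ [c, b, a]) := by
        have h3 : a :: b :: c :: d :: e :: l = [a, b, c] ++ (d :: e :: l) := rfl
        rw [h3, List.reverse_append, hr]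
        rfl
      have e2 : (b :: (a + c) :: d :: e :: l).reverse = p :: q :: (r ++ [a + c, b]) := by
        have h3 : b :: (a + c) :: d :: e :: l = [b, a + c] ++ (d :: e :: l) := rfl
        rw [h3, List.reverse_append, hr]
        rfl
      have b2 : Blk T (b :: (a + c) :: d :: e :: l).reverse := by
        obtain ⟨x, y, l', hl, h⟩ := h2
        rw [e1] at hl
        simp only [List.cons.injEq] at hl
        refine ⟨p, q, r ++ [a + c, b], e2, ?_⟩
        rw [hl.1, hl.2.1]
        exact h
      have h3 := ih _ hs' b1 b2 (by rw [hsum]; exact hT)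
      rw [hsum] at h3
      have hpath : path (a :: b :: c :: d :: e :: l) ≤ path (b :: (a + c) :: d :: e :: l) := by
        have q1 : path (a :: b :: c :: d :: e :: l) = a * b + (b * c + path (c :: d :: e :: l)) := rfl
        have q2 : path (b :: (a + c) :: d :: e :: l) = b * (a + c) + path ((a + c) :: d :: e :: l) := rfl
        have q3 := path_mono c (a + c) (Nat.le_add_left c a) (d :: e :: l)
        rw [q1, q2]
        have q4 : b * (a + c) = a * b + b * c := by ring
        rw [q4]
        omega
      refine le_trans ?_ h3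
      exact_mod_cast hpath

theorem blk : S_BLK := by
  intro T s hs h1 h2 hT
  exact blk_aux T (s.length - 7) s (by omega) h1 h2 hT

end Pool.Agent.P8H54.OD
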